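import Pool.Agent.W732.Cor.Stm2

/-! COR-PART: a partition of unity on the half plane adapted to the hyperbolic metric. -/

set_option autoImplicit false

open Metric Set Filter Topology Complex
open scoped ContDiff

namespace Pool.Agent.W563.Cor

noncomputable section

/-- the bump function -/
def bb (x : ℝ) : ℝ := Real.smoothTransition (x + 1) - Real.smoothTransition x

theorem bb_zero_of_le {x : ℝ} (h : x ≤ -1) : bb x = 0 := by
  unfold bb
  rw [Real.smoothTransition.zero_of_nonpos (by linarith),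
    Real.smoothTransition.zero_of_nonpos (by linarith), sub_zero]

theorem bb_zero_of_ge {x : ℝ} (h : 1 ≤ x) : bb x = 0 := by
  unfold bb
  rw [Real.smoothTransition.one_of_one_le (by linarith),
    Real.smoothTransition.one_of_one_le (by linarith), sub_self]

theorem bb_abs_lt {x : ℝ} (h : bb x ≠ 0) : -1 < x ∧ x < 1 := by
  constructor
  · by_contra hc
    exact h (bb_zero_of_le (not_lt.1 hc))
  · by_contra hc
    exact h (bb_zero_of_ge (not_lt.1 hc))

theorem bb_nonneg (x : ℝ) : 0 ≤ bb x := by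
  unfold bb
  rcases le_total x 0 with h | h
  · rw [Real.smoothTransition.zero_of_nonpos h, sub_zero]
    exact Real.smoothTransition.nonneg _
  · rw [Real.smoothTransition.one_of_one_le (by linarith : 1 ≤ x + 1)]
    linarith [Real.smoothTransition.le_one x]

theorem bb_le_one (x : ℝ) : bb x ≤ 1 := by
  unfold bb
  linarith [Real.smoothTransition.le_one (x + 1), Real.smoothTransition.nonneg x]

theorem bb_contDiff : ContDiff ℝ 2 bb := by
  unfold bb
  exact (Real.smoothTransition.contDiff.comp (contDiff_id.add contDiff_const)).sub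
    Real.smoothTransition.contDiff

theorem bb_diff (x : ℝ) : HasDerivAt bb (deriv bb x) x :=
  ((bb_contDiff.differentiable (by norm_num)) x).hasDerivAt

theorem bb_bound : ∃ B : ℝ, 0 ≤ B ∧ ∀ x, |deriv bb x| ≤ B := by
  have hc : Continuous (deriv bb) := bb_contDiff.continuous_deriv (by norm_num)
  obtain ⟨B, hB⟩ := (isCompact_Icc (a := (-2 : ℝ)) (b := 2)).exists_bound_of_continuousOn
    hc.continuousOn
  refine ⟨B, le_trans (norm_nonneg _) (hB 0 (by norm_num)), fun x => ?_⟩
  by_cases hx : x ∈ Icc (-2 : ℝ) 2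
  · exact hB x hx
  · have hz : deriv bb x = 0 := by
      have : bb =ᶠ[𝓝 x] fun _ => (0 : ℝ) := by
        rw [mem_Icc, not_and_or, not_le, not_le] at hx
        rcases hx with h | h
        · filter_upwards [Iio_mem_nhds (show x < -1 by linarith)] with y hy
          exact bb_zero_of_le (le_of_lt hy)
        · filter_upwards [Ioi_mem_nhds (show 1 < x by linarith)] with y hy
          exact bb_zero_of_ge (le_of_lt hy)
      rw [this.deriv_eq, deriv_const]
    rw [hz, abs_zero]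
    exact le_trans (norm_nonneg _) (hB 0 (by norm_num))

/-- three consecutive translates sum to one -/
theorem bb_sum (x : ℝ) (n : ℤ) (h1 : (n : ℝ) - 1 ≤ x) (h2 : x ≤ n + 1) :
    bb (x - ((n - 1 : ℤ) : ℝ)) + bb (x - (n : ℝ)) + bb (x - ((n + 1 : ℤ) : ℝ)) = 1 := by
  unfold bb
  push_cast
  have e1 : x - ((n : ℝ) - 1) + 1 = x - n + 2 := by ring
  have e2 : x - ((n : ℝ) - 1) = x - n + 1 := by ring
  have e3 : x - ((n : ℝ) + 1) + 1 = x - n := by ring
  rw [e1, e2, e3, Real.smoothTransition.one_of_one_le (by linarith : 1 ≤ x - n + 2),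
    Real.smoothTransition.zero_of_nonpos (by linarith : x - ((n : ℝ) + 1) ≤ 0)]
  ring

theorem bb_out (x : ℝ) (n k : ℤ) (h1 : (n : ℝ) - 1 ≤ x) (h2 : x ≤ n + 1)
    (hk : k ∉ ({n - 1, n, n + 1} : Finset ℤ)) : bb (x - (k : ℝ)) = 0 := by
  have h3 : k ≤ n - 2 ∨ n + 2 ≤ k := by
    simp only [Finset.mem_insert, Finset.mem_singleton] at hk
    omega
  rcases h3 with h | h
  · apply bb_zero_of_ge
    have : (k : ℝ) ≤ (n : ℝ) - 2 := by exact_mod_cast h
    linarith
  · apply bb_zero_of_le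
    have : (n : ℝ) + 2 ≤ (k : ℝ) := by exact_mod_cast h
    linarith

/-- the functions -/
def chi (lam sig : ℝ) (j : ℤ × ℤ) (w : ℂ) : ℂ :=
  ((bb (Real.log w.im / Real.log lam - j.1) * bb (w.re / (sig * lam ^ j.1) - j.2) : ℝ) : ℂ)

theorem chi_contDiffOn (lam sig : ℝ) (j : ℤ × ℤ) :
    ContDiffOn ℝ 1 (chi lam sig j) {w : ℂ | 0 < w.im} := by
  unfold chi
  have hb : ContDiff ℝ 1 bb := bb_contDiff.of_le (by norm_num)
  have h1 : ContDiffOn ℝ 1 (fun w : ℂ => Real.log w.im / Real.log lam - (j.1 : ℝ))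
      {w : ℂ | 0 < w.im} := by
    refine ContDiffOn.sub (ContDiffOn.div_const (ContDiffOn.log ?_ ?_) _) contDiffOn_const
    · exact Complex.imCLM.contDiff.contDiffOn
    · intro w hw; exact ne_of_gt hw
  have h2 : ContDiffOn ℝ 1 (fun w : ℂ => w.re / (sig * lam ^ j.1) - (j.2 : ℝ))
      {w : ℂ | 0 < w.im} :=
    ContDiffOn.sub (ContDiffOn.div_const Complex.reCLM.contDiff.contDiffOn _) contDiffOn_const
  exact Complex.ofRealCLM.contDiff.comp_contDiffOn
    ((hb.comp_contDiffOn h1).mul (hb.comp_contDiffOn h2))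

theorem chi_deriv (lam sig : ℝ) (j : ℤ × ℤ) (w : ℂ) (hw : 0 < w.im) :
    fderiv ℝ (chi lam sig j) w 1 =
      ((bb (Real.log w.im / Real.log lam - j.1) *
        (deriv bb (w.re / (sig * lam ^ j.1) - j.2) / (sig * lam ^ j.1)) : ℝ) : ℂ) ∧
    fderiv ℝ (chi lam sig j) w I =
      ((bb (w.re / (sig * lam ^ j.1) - j.2) *
        (deriv bb (Real.log w.im / Real.log lam - j.1) / (w.im * Real.log lam)) : ℝ) : ℂ) := by
  have him : HasFDerivAt (fun w : ℂ => w.im) Complex.imCLM w := Complex.imCLM.hasFDerivAt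
  have hre : HasFDerivAt (fun w : ℂ => w.re) Complex.reCLM w := Complex.reCLM.hasFDerivAt
  have h1 : HasFDerivAt (fun w : ℂ => Real.log w.im / Real.log lam - (j.1 : ℝ))
      ((Real.log lam)⁻¹ • ((w.im)⁻¹ • Complex.imCLM)) w := by
    have := ((him.log hw.ne').const_mul (Real.log lam)⁻¹).sub_const (j.1 : ℝ)
    refine this.congr_of_eventuallyEq (Eventually.of_forall fun z => ?_)
    simp only [div_eq_inv_mul]
  have h2 : HasFDerivAt (fun w : ℂ => w.re / (sig * lam ^ j.1) - (j.2 : ℝ))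
      ((sig * lam ^ j.1)⁻¹ • Complex.reCLM) w := by
    have := (hre.const_mul (sig * lam ^ j.1)⁻¹).sub_const (j.2 : ℝ)
    refine this.congr_of_eventuallyEq (Eventually.of_forall fun z => ?_)
    simp only [div_eq_inv_mul]
  have g1 := (bb_diff (Real.log w.im / Real.log lam - (j.1 : ℝ))).comp_hasFDerivAt w h1
  have g2 := (bb_diff (w.re / (sig * lam ^ j.1) - (j.2 : ℝ))).comp_hasFDerivAt w h2
  have g3 := Complex.ofRealCLM.hasFDerivAt.comp w (g1.mul g2)
  have g4 : HasFDerivAt (chi lam sig j) _ w := g3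
  rw [g4.fderiv]
  constructor
  · simp [div_eq_mul_inv]
  · simp [div_eq_mul_inv]

theorem im_bounds {lam y : ℝ} (hlam : 1 < lam) (hy : 0 < y) (m : ℤ)
    (h1 : -1 < Real.log y / Real.log lam - m) (h2 : Real.log y / Real.log lam - m < 1) :
    lam ^ (m - 1) < y ∧ y < lam ^ (m + 1) := by
  have hl0 : 0 < lam := by linarith
  have hl : 0 < Real.log lam := Real.log_pos hlam
  constructor
  · rw [← Real.log_lt_log_iff (zpow_pos hl0 _) hy, Real.log_zpow]
    push_cast
    have : (m : ℝ) - 1 < Real.log y / Real.log lam := by linarith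
    rwa [lt_div_iff₀ hl] at this
  · rw [← Real.log_lt_log_iff hy (zpow_pos hl0 _), Real.log_zpow]
    push_cast
    have : Real.log y / Real.log lam < (m : ℝ) + 1 := by linarith
    rwa [div_lt_iff₀ hl] at this

theorem chi_supp {lam sig : ℝ} (hlam : 1 < lam) (hsig : 0 < sig) (j : ℤ × ℤ) (w : ℂ)
    (hw : 0 < w.im) (h : chi lam sig j w ≠ 0) :
    ‖w - ((lam ^ j.1 : ℝ) : ℂ) * (((sig * j.2 : ℝ) : ℂ) + I)‖ ≤ (sig + (lam - 1)) * lam ^ j.1 := by
  have hl0 : 0 < lam := by linarith
  have hp : 0 < lam ^ j.1 := zpow_pos hl0 _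
  unfold chi at h
  rw [Complex.ofReal_ne_zero] at h
  obtain ⟨h1, h2⟩ := mul_ne_zero_iff.1 h
  obtain ⟨a1, a2⟩ := bb_abs_lt h1
  obtain ⟨b1, b2⟩ := bb_abs_lt h2
  obtain ⟨c1, c2⟩ := im_bounds hlam hw j.1 a1 a2
  have hre : (w - ((lam ^ j.1 : ℝ) : ℂ) * (((sig * j.2 : ℝ) : ℂ) + I)).re =
      w.re - lam ^ j.1 * (sig * j.2) := by
    rw [Complex.sub_re, Complex.re_ofReal_mul, Complex.add_re, Complex.ofReal_re, Complex.I_re,
      add_zero]
  have him : (w - ((lam ^ j.1 : ℝ) : ℂ) * (((sig * j.2 : ℝ) : ℂ) + I)).im =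
      w.im - lam ^ j.1 := by
    rw [Complex.sub_im, Complex.im_ofReal_mul, Complex.add_im, Complex.ofReal_im, Complex.I_im,
      zero_add, mul_one]
  refine le_trans (Complex.norm_le_abs_re_add_abs_im _) ?_
  rw [hre, him]
  have hsp : 0 < sig * lam ^ j.1 := mul_pos hsig hp
  have d1 : |w.re - lam ^ j.1 * (sig * j.2)| ≤ sig * lam ^ j.1 := by
    have e : w.re - lam ^ j.1 * (sig * j.2) =
        (sig * lam ^ j.1) * (w.re / (sig * lam ^ j.1) - j.2) := by
      field_simp
    rw [e, abs_mul, abs_of_pos hsp]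
    have : |w.re / (sig * lam ^ j.1) - (j.2 : ℝ)| ≤ 1 := abs_le.2 ⟨b1.le, b2.le⟩
    nlinarith
  have d2 : |w.im - lam ^ j.1| ≤ (lam - 1) * lam ^ j.1 := by
    rw [zpow_add_one₀ hl0.ne'] at c2
    rw [zpow_sub_one₀ hl0.ne'] at c1
    rw [abs_le]
    constructor
    · have e : 2 - lam ≤ lam⁻¹ := by
        rw [← one_div, le_div_iff₀ hl0]
        nlinarith [sq_nonneg (lam - 1)]
      nlinarith
    · nlinarith
  nlinarith

theorem chi_local {lam sig : ℝ} (w₀ : ℂ) (hw₀ : 0 < w₀.im) :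
    ∃ S : Finset (ℤ × ℤ), S.card ≤ 16 ∧ ∃ r > 0,
      ball w₀ r ⊆ {w : ℂ | 0 < w.im} ∧
      ∀ w ∈ ball w₀ r, (∀ j, j ∉ S → chi lam sig j w = 0) ∧ ∑ j ∈ S, chi lam sig j w = 1 := by
  classical
  set X : ℂ → ℝ := fun w => Real.log w.im / Real.log lam with hX
  set Y : ℤ → ℂ → ℝ := fun m w => w.re / (sig * lam ^ m) with hY
  set n : ℤ := round (X w₀) with hn
  set kk : ℤ → ℤ := fun m => round (Y m w₀) with hkk
  set D : Finset ℤ := {-1, 0, 1} with hD
  have hXc : ContinuousAt X w₀ := by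
    refine ContinuousAt.div_const (ContinuousAt.log Complex.continuous_im.continuousAt hw₀.ne') _
  have hYc : ∀ m, ContinuousAt (Y m) w₀ := fun m =>
    ContinuousAt.div_const Complex.continuous_re.continuousAt _
  have near : ∀ x : ℝ, ((round x : ℤ) : ℝ) - 1 < x ∧ x < ((round x : ℤ) : ℝ) + 1 := by
    intro x
    have := abs_le.1 (abs_sub_round x)
    constructor
    · linarith [this.1]
    · linarith [this.2]
  have ev1 : ∀ᶠ w in 𝓝 w₀, (n : ℝ) - 1 ≤ X w ∧ X w ≤ n + 1 := by
    filter_upwards [hXc.eventually (lt_mem_nhds (near (X w₀)).1),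
      hXc.eventually (gt_mem_nhds (near (X w₀)).2)] with w h1 h2
    exact ⟨h1.le, h2.le⟩
  have ev2 : ∀ m : ℤ, ∀ᶠ w in 𝓝 w₀, (kk m : ℝ) - 1 ≤ Y m w ∧ Y m w ≤ kk m + 1 := by
    intro m
    filter_upwards [(hYc m).eventually (lt_mem_nhds (near (Y m w₀)).1),
      (hYc m).eventually (gt_mem_nhds (near (Y m w₀)).2)] with w h1 h2
    exact ⟨h1.le, h2.le⟩
  have ev3 : ∀ᶠ w in 𝓝 w₀, ∀ m ∈ D, (kk (n + m) : ℝ) - 1 ≤ Y (n + m) w ∧
      Y (n + m) w ≤ kk (n + m) + 1 := by
    rw [Filter.eventually_all_finset]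
    intro m _
    exact ev2 (n + m)
  have ev4 : ∀ᶠ w : ℂ in 𝓝 w₀, 0 < w.im :=
    (Complex.continuous_im.continuousAt).eventually (lt_mem_nhds hw₀)
  obtain ⟨r, hr, hball⟩ := Metric.eventually_nhds_iff_ball.1 ((ev1.and ev3).and ev4)
  set φ : ℤ × ℤ → ℤ × ℤ := fun p => (n + p.1, kk (n + p.1) + p.2) with hφ
  have hinj : Function.Injective φ := by
    intro p q h
    simp only [hφ, Prod.mk.injEq] at h
    obtain ⟨h1, h2⟩ := h
    have h3 : p.1 = q.1 := by linarith
    rw [h3] at h2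
    exact Prod.ext h3 (by linarith)
  refine ⟨(D ×ˢ D).image φ, ?_, r, hr, fun w hw => (hball w hw).2, fun w hw => ⟨?_, ?_⟩⟩
  · refine le_trans Finset.card_image_le ?_
    rw [Finset.card_product]
    have : D.card = 3 := by rw [hD]; decide
    rw [this]
    norm_num
  · intro j hj
    obtain ⟨⟨h1, h3⟩, _⟩ := hball w hw
    unfold chi
    rw [Complex.ofReal_eq_zero, mul_eq_zero]
    by_cases hj1 : j.1 ∈ ({n - 1, n, n + 1} : Finset ℤ)
    · right
      have hm : j.1 - n ∈ D := by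
        simp only [Finset.mem_insert, Finset.mem_singleton, hD] at hj1 ⊢
        omega
      have h4 := h3 (j.1 - n) hm
      rw [add_sub_cancel] at h4
      refine bb_out (Y j.1 w) (kk j.1) j.2 h4.1 h4.2 ?_
      intro hk
      apply hj
      rw [Finset.mem_image]
      refine ⟨(j.1 - n, j.2 - kk j.1), ?_, ?_⟩
      · rw [Finset.mem_product]
        refine ⟨hm, ?_⟩
        simp only [Finset.mem_insert, Finset.mem_singleton, hD] at hk ⊢
        omega
      · simp only [hφ]
        rw [add_sub_cancel, add_sub_cancel]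
    · left
      exact bb_out (X w) n j.1 h1.1 h1.2 hj1
  · obtain ⟨⟨h1, h3⟩, _⟩ := hball w hw
    rw [Finset.sum_image (fun p _ q _ h => hinj h), Finset.sum_product]
    have inner : ∀ m ∈ D, ∑ k ∈ D, chi lam sig (φ (m, k)) w =
        ((bb (X w - ((n + m : ℤ) : ℝ)) : ℝ) : ℂ) := by
      intro m hm
      have h4 := h3 m hm
      have h5 := bb_sum (Y (n + m) w) (kk (n + m)) h4.1 h4.2
      have e : ∀ k : ℤ, chi lam sig (φ (m, k)) w = ((bb (X w - ((n + m : ℤ) : ℝ)) : ℝ) : ℂ) *
          ((bb (Y (n + m) w - ((kk (n + m) + k : ℤ) : ℝ)) : ℝ) : ℂ) := by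
        intro k
        unfold chi
        rw [Complex.ofReal_mul]
      simp_rw [e]
      rw [← Finset.mul_sum, ← Complex.ofReal_sum]
      have e2 : ∑ k ∈ D, bb (Y (n + m) w - ((kk (n + m) + k : ℤ) : ℝ)) = 1 := by
        rw [← h5, hD, Finset.sum_insert (by decide), Finset.sum_insert (by decide),
          Finset.sum_singleton, add_zero, ← sub_eq_add_neg]
        ring
      rw [e2, Complex.ofReal_one, mul_one]
    rw [Finset.sum_congr rfl inner, ← Complex.ofReal_sum]
    have h5 := bb_sum (X w) n h1.1 h1.2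
    have e2 : ∑ m ∈ D, bb (X w - ((n + m : ℤ) : ℝ)) = 1 := by
      rw [← h5, hD, Finset.sum_insert (by decide), Finset.sum_insert (by decide),
        Finset.sum_singleton, add_zero, ← sub_eq_add_neg]
      ring
    rw [e2, Complex.ofReal_one]

theorem chi_dbar {lam sig B : ℝ} (hlam : 1 < lam) (hsig : 0 < sig) (hB : 0 ≤ B)
    (hb : ∀ x, |deriv bb x| ≤ B) (j : ℤ × ℤ) (w : ℂ) (hw : 0 < w.im) :
    ‖(fderiv ℝ (chi lam sig j) w 1 + I * fderiv ℝ (chi lam sig j) w I) / 2‖ ≤
      (B * lam / sig + B / Real.log lam) / w.im := by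
  have hl0 : 0 < lam := by linarith
  have hp : 0 < lam ^ j.1 := zpow_pos hl0 _
  have hl : 0 < Real.log lam := Real.log_pos hlam
  have hsp : 0 < sig * lam ^ j.1 := mul_pos hsig hp
  obtain ⟨h1, h2⟩ := chi_deriv lam sig j w hw
  rw [h1, h2]
  have n1 : |bb (Real.log w.im / Real.log lam - j.1) *
        (deriv bb (w.re / (sig * lam ^ j.1) - j.2) / (sig * lam ^ j.1))| ≤
        (B * lam / sig) / w.im := by
    by_cases hz : bb (Real.log w.im / Real.log lam - j.1) = 0
    · rw [hz, zero_mul, abs_zero]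
      positivity
    · obtain ⟨a1, a2⟩ := bb_abs_lt hz
      obtain ⟨c1, c2⟩ := im_bounds hlam hw j.1 a1 a2
      rw [zpow_add_one₀ hl0.ne'] at c2
      rw [abs_mul, abs_div, abs_of_pos hsp, abs_of_nonneg (bb_nonneg _)]
      have e1 : |deriv bb (w.re / (sig * lam ^ j.1) - j.2)| / (sig * lam ^ j.1) ≤
          B / (sig * lam ^ j.1) := by
        gcongr
        exact hb _
      have e2 : B / (sig * lam ^ j.1) ≤ (B * lam / sig) / w.im := by
        rw [div_div, div_le_div_iff₀ hsp (mul_pos hsig hw)]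
        have : B * sig * w.im ≤ B * sig * (lam ^ j.1 * lam) := by
          gcongr
        nlinarith
      have e3 : 0 ≤ |deriv bb (w.re / (sig * lam ^ j.1) - j.2)| / (sig * lam ^ j.1) := by
        positivity
      calc _ ≤ 1 * (|deriv bb (w.re / (sig * lam ^ j.1) - j.2)| / (sig * lam ^ j.1)) := by
            gcongr
            exact bb_le_one _
        _ ≤ _ := by rw [one_mul]; exact e1.trans e2
  have n2 : |bb (w.re / (sig * lam ^ j.1) - j.2) *
        (deriv bb (Real.log w.im / Real.log lam - j.1) / (w.im * Real.log lam))| ≤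
        (B / Real.log lam) / w.im := by
    have hpp : 0 < w.im * Real.log lam := mul_pos hw hl
    rw [abs_mul, abs_div, abs_of_pos hpp, abs_of_nonneg (bb_nonneg _)]
    have e1 : |deriv bb (Real.log w.im / Real.log lam - j.1)| / (w.im * Real.log lam) ≤
        B / (w.im * Real.log lam) := by
      gcongr
      exact hb _
    have e2 : B / (w.im * Real.log lam) = (B / Real.log lam) / w.im := by
      rw [div_div, mul_comm]
    calc _ ≤ 1 * (|deriv bb (Real.log w.im / Real.log lam - j.1)| / (w.im * Real.log lam)) := by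
          gcongr
          exact bb_le_one _
      _ ≤ _ := by rw [one_mul, ← e2]; exact e1
  rw [norm_div, Complex.norm_ofNat]
  have n3 : ∀ x y : ℝ, ‖(x : ℂ) + I * (y : ℂ)‖ ≤ |x| + |y| := by
    intro x y
    refine le_trans (norm_add_le _ _) ?_
    rw [norm_mul, Complex.norm_I, one_mul, Complex.norm_real, Complex.norm_real]
    rfl
  have n4 := n3 (bb (Real.log w.im / Real.log lam - j.1) *
        (deriv bb (w.re / (sig * lam ^ j.1) - j.2) / (sig * lam ^ j.1)))
        (bb (w.re / (sig * lam ^ j.1) - j.2) *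
        (deriv bb (Real.log w.im / Real.log lam - j.1) / (w.im * Real.log lam)))
  rw [add_div]
  have n5 := norm_nonneg ((((bb (Real.log w.im / Real.log lam - j.1) *
        (deriv bb (w.re / (sig * lam ^ j.1) - j.2) / (sig * lam ^ j.1)) : ℝ)) : ℂ) + I *
        (((bb (w.re / (sig * lam ^ j.1) - j.2) *
        (deriv bb (Real.log w.im / Real.log lam - j.1) / (w.im * Real.log lam)) : ℝ)) : ℂ))
  linarith

theorem main : Pool.Agent.W732.Cor.S_part0 := by
  intro κ hκ
  obtain ⟨B, hB, hb⟩ := bb_bound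
  have hk : 0 < min κ 1 := lt_min hκ one_pos
  have hsig : 0 < min κ 1 / 2 := by linarith
  have hlam : 1 < 1 + min κ 1 / 2 := by linarith
  refine ⟨B * (1 + min κ 1 / 2) / (min κ 1 / 2) + B / Real.log (1 + min κ 1 / 2),
    fun j => (((1 + min κ 1 / 2) ^ j.1 : ℝ) : ℂ) * (((min κ 1 / 2 * j.2 : ℝ) : ℂ) + I),
    chi (1 + min κ 1 / 2) (min κ 1 / 2), ?_, ?_, ?_, ?_, ?_, ?_, ?_⟩
  · have : 0 < Real.log (1 + min κ 1 / 2) := Real.log_pos hlam
    positivity
  · intro j
    rw [Complex.im_ofReal_mul, Complex.add_im, Complex.ofReal_im, Complex.I_im, zero_add, mul_one]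
    exact zpow_pos (by linarith) _
  · exact fun j => chi_contDiffOn _ _ j
  · intro j w hw h
    rw [Complex.im_ofReal_mul, Complex.add_im, Complex.ofReal_im, Complex.I_im, zero_add, mul_one]
    refine le_trans (chi_supp hlam hsig j w hw h) ?_
    have : 0 < (1 + min κ 1 / 2) ^ j.1 := zpow_pos (by linarith) _
    have h2 : min κ 1 ≤ κ := min_le_left _ _
    gcongr
    linarith
  · intro j w _
    unfold chi
    rw [Complex.norm_real, Real.norm_eq_abs, abs_of_nonneg (mul_nonneg (bb_nonneg _) (bb_nonneg _))]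
    exact mul_le_one₀ (bb_le_one _) (bb_nonneg _) (bb_le_one _)
  · exact fun j w hw => chi_dbar hlam hsig hB hb j w hw
  · exact fun w₀ hw₀ => chi_local w₀ hw₀

end

end Pool.Agent.W563.Cor
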